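import Mathlib

/-!
# Malcev Neumann series over a bi-ordered group with constant coefficients

`G` is a group with a linear order invariant under left and right multiplication, `k` a field.
`MN G k` is the ring of functions `G → k` with well-ordered support.
-/

set_option autoImplicit false

noncomputable section

namespace SingerSq

open Function Set
open scoped Pointwise
set_option linter.unusedSectionVars false

section Order

variable {G : Type*} [Group G] [LinearOrder G] [MulLeftStrictMono G] [MulRightStrictMono G]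

instance (priority := 100) mulLeftMono' : MulLeftMono G := covariantClass_le_of_lt _ _ _
instance (priority := 100) mulRightMono' : MulRightMono G := covariantClass_le_of_lt _ _ _

theorem fin_anti {s t : Set G} (hs : s.IsPWO) (ht : t.IsPWO) (g : G) :
    {a : G | a ∈ s ∧ a⁻¹ * g ∈ t}.Finite := by
  by_contra h
  have h : {a : G | a ∈ s ∧ a⁻¹ * g ∈ t}.Infinite := h
  set f := h.natEmbedding with hf
  obtain ⟨φ, hφ⟩ := hs.exists_monotone_subseq (f := fun n => ((f n : G))) (fun n => (f n).2.1)
  obtain ⟨m, n, hmn, hle⟩ := ht (fun n => ⟨((f (φ n) : G))⁻¹ * g, (f (φ n)).2.2⟩)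
  have h1 : (f (φ m) : G) ≤ f (φ n) := hφ hmn.le
  have h2 : (f (φ m) : G)⁻¹ ≤ (f (φ n) : G)⁻¹ := le_of_mul_le_mul_right' hle
  have h3 : (f (φ m) : G) = f (φ n) := le_antisymm h1 (inv_le_inv_iff.1 h2)
  have h4 := f.injective (Subtype.ext h3)
  exact hmn.ne (φ.injective h4)

theorem isPWO_mul {s t : Set G} (hs : s.IsPWO) (ht : t.IsPWO) : (s * t).IsPWO := by
  rw [← Set.image_mul_prod]
  exact (hs.prod ht).image_of_monotone (monotone_fst.mul' monotone_snd)

theorem isPWO_closure {s : Set G} (hpos : ∀ x ∈ s, (1 : G) ≤ x) (h : s.IsPWO) :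
    (Submonoid.closure s : Set G).IsPWO := by
  rw [Submonoid.closure_eq_image_prod]
  refine (h.partiallyWellOrderedOn_sublistForall₂ (· ≤ ·)).image_of_monotone_on ?_
  exact fun l1 _ l2 hl2 h12 => h12.prod_le_prod' fun x hx => hpos x <| hl2 x hx

end Order

variable (G k : Type*) [Group G] [LinearOrder G] [MulLeftStrictMono G] [MulRightStrictMono G]
  [Field k]

/-- The space of functions with well-ordered support. -/
def mnSub : Submodule k (G → k) where
  carrier := {f | (support f).IsPWO}
  zero_mem' := by simp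
  add_mem' := by
    intro a b ha hb
    exact (Set.IsPWO.union ha hb).mono (support_add a b)
  smul_mem' := by
    intro c x hx
    exact Set.IsPWO.mono hx (support_const_smul_subset c x)

/-- Malcev Neumann series. -/
def MN : Type _ := ↥(mnSub G k)

instance : AddCommGroup (MN G k) := inferInstanceAs (AddCommGroup ↥(mnSub G k))
instance : Module k (MN G k) := inferInstanceAs (Module k ↥(mnSub G k))

variable {G k}

/-- coefficients -/
def co (x : MN G k) : G → k := x.1

theorem co_pwo (x : MN G k) : (support (co x)).IsPWO := x.2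

/-- constructor -/
def mk' (f : G → k) (hf : (support f).IsPWO) : MN G k := ⟨f, hf⟩

@[simp] theorem co_mk' (f : G → k) (hf : (support f).IsPWO) : co (mk' f hf) = f := rfl

@[ext] theorem MN.ext {x y : MN G k} (h : ∀ g, co x g = co y g) : x = y :=
  Subtype.ext (funext h)

@[simp] theorem co_zero (g : G) : co (0 : MN G k) g = 0 := rfl
@[simp] theorem co_add (x y : MN G k) (g : G) : co (x + y) g = co x g + co y g := rfl
@[simp] theorem co_neg (x : MN G k) (g : G) : co (-x) g = - co x g := rfl
@[simp] theorem co_sub (x y : MN G k) (g : G) : co (x - y) g = co x g - co y g := rfl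
@[simp] theorem co_smul (c : k) (x : MN G k) (g : G) : co (c • x) g = c * co x g := rfl

theorem fin_supp (x y : MN G k) (g : G) :
    {a : G | co x a ≠ 0 ∧ co y (a⁻¹ * g) ≠ 0}.Finite := fin_anti (co_pwo x) (co_pwo y) g

theorem hfs (x y : MN G k) (g : G) :
    HasFiniteSupport (fun a => co x a * co y (a⁻¹ * g)) := by
  refine (fin_supp x y g).subset ?_
  intro a ha
  exact ⟨left_ne_zero_of_mul ha, right_ne_zero_of_mul ha⟩

/-- product of series -/
def mulFun (x y : MN G k) (g : G) : k := ∑ᶠ a, co x a * co y (a⁻¹ * g)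

theorem support_mulFun (x y : MN G k) :
    support (mulFun x y) ⊆ support (co x) * support (co y) := by
  intro g hg
  have : ∃ a, co x a * co y (a⁻¹ * g) ≠ 0 := by
    by_contra h
    push Not at h
    exact hg (by simp [mulFun, h])
  obtain ⟨a, ha⟩ := this
  exact Set.mem_mul.2 ⟨a, left_ne_zero_of_mul ha, a⁻¹ * g, right_ne_zero_of_mul ha, by group⟩

instance : Mul (MN G k) :=
  ⟨fun x y => mk' (mulFun x y) ((isPWO_mul (co_pwo x) (co_pwo y)).mono (support_mulFun x y))⟩

theorem co_mul (x y : MN G k) (g : G) : co (x * y) g = ∑ᶠ a, co x a * co y (a⁻¹ * g) := rfl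

/-- monomials -/
def single (g : G) (c : k) : MN G k := by
  classical
  exact mk' (Pi.single g c) ((Set.finite_singleton g).isPWO.mono (by
    intro a ha
    by_contra h
    exact ha (by simp [Pi.single_apply, Set.mem_singleton_iff.not.1 h])))

theorem co_single [DecidableEq G] (g : G) (c : k) (a : G) :
    co (single g c) a = if a = g then c else 0 := by
  simp only [single, co_mk', Pi.single_apply]
  split_ifs <;> rfl

instance : One (MN G k) := ⟨single 1 1⟩

theorem one_def : (1 : MN G k) = single 1 1 := rfl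

theorem single_mul (g : G) (c : k) (x : MN G k) (a : G) :
    co (single g c * x) a = c * co x (g⁻¹ * a) := by
  classical
  rw [co_mul, finsum_eq_single _ g]
  · simp [co_single]
  · intro b hb
    simp [co_single, hb]

theorem mul_single (g : G) (c : k) (x : MN G k) (a : G) :
    co (x * single g c) a = co x (a * g⁻¹) * c := by
  classical
  rw [co_mul, finsum_eq_single _ (a * g⁻¹)]
  · simp [co_single]
  · intro b hb
    have : b⁻¹ * a ≠ g := by
      intro h
      apply hb
      rw [← h]
      group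
    simp [co_single, this]

theorem triple_fin (x y z : MN G k) (g : G) :
    {p : G × G | co x p.1 ≠ 0 ∧ co y p.2 ≠ 0 ∧ co z (p.2⁻¹ * (p.1⁻¹ * g)) ≠ 0}.Finite := by
  have h1 := fin_anti (isPWO_mul (co_pwo x) (co_pwo y)) (co_pwo z) g
  have : {p : G × G | co x p.1 ≠ 0 ∧ co y p.2 ≠ 0 ∧ co z (p.2⁻¹ * (p.1⁻¹ * g)) ≠ 0} ⊆
      ⋃ c ∈ {a : G | a ∈ support (co x) * support (co y) ∧ a⁻¹ * g ∈ support (co z)},
        (fun a => (a, a⁻¹ * c)) '' {a : G | a ∈ support (co x) ∧ a⁻¹ * c ∈ support (co y)} := by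
    rintro ⟨a, b⟩ ⟨ha, hb, hc⟩
    simp only [Set.mem_iUnion]
    refine ⟨a * b, ⟨Set.mul_mem_mul ha hb, ?_⟩, a, ⟨ha, ?_⟩, ?_⟩
    · simpa [mul_assoc] using hc
    · simpa using hb
    · simp
  exact (h1.biUnion fun c _ => (fin_anti (co_pwo x) (co_pwo y) c).image _).subset this

theorem mul_assoc' (x y z : MN G k) : x * y * z = x * (y * z) := by
  ext g
  have hL : co (x * y * z) g
      = ∑ᶠ c, ∑ᶠ a, co x a * co y (a⁻¹ * c) * co z (c⁻¹ * g) := by
    rw [co_mul]
    refine finsum_congr fun c => ?_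
    rw [co_mul, finsum_mul]
  have hR : co (x * (y * z)) g
      = ∑ᶠ a, ∑ᶠ b, co x a * co y b * co z (b⁻¹ * (a⁻¹ * g)) := by
    rw [co_mul]
    refine finsum_congr fun a => ?_
    rw [co_mul, mul_finsum]
    refine finsum_congr fun b => ?_
    rw [mul_assoc]
  have f2 : HasFiniteSupport
      (fun p : G × G => co x p.1 * co y p.2 * co z (p.2⁻¹ * (p.1⁻¹ * g))) := by
    refine (triple_fin x y z g).subset ?_
    rintro ⟨a, b⟩ h
    exact ⟨left_ne_zero_of_mul (left_ne_zero_of_mul h),
      right_ne_zero_of_mul (left_ne_zero_of_mul h), right_ne_zero_of_mul h⟩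
  let e : G × G ≃ G × G :=
    { toFun := fun p => (p.1 * p.2, p.1)
      invFun := fun q => (q.2, q.2⁻¹ * q.1)
      left_inv := by rintro ⟨a, b⟩; simp
      right_inv := by rintro ⟨a, b⟩; simp }
  have hcomp : (fun p : G × G => co x p.1 * co y p.2 * co z (p.2⁻¹ * (p.1⁻¹ * g)))
      = (fun q : G × G => co x q.2 * co y (q.2⁻¹ * q.1) * co z (q.1⁻¹ * g)) ∘ e := by
    funext p
    simp [e, mul_assoc]
  have f1 : HasFiniteSupport
      (fun q : G × G => co x q.2 * co y (q.2⁻¹ * q.1) * co z (q.1⁻¹ * g)) := by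
    have h := f2
    rw [hcomp] at h
    have h' : (support ((fun q : G × G => co x q.2 * co y (q.2⁻¹ * q.1) * co z (q.1⁻¹ * g)) ∘ e)).Finite := h
    rw [support_comp_eq_preimage] at h'
    have := h'.image e
    rw [Set.image_preimage_eq _ e.surjective] at this
    exact this
  rw [hL, hR]
  rw [← finsum_curry (fun p : G × G => co x p.1 * co y p.2 * co z (p.2⁻¹ * (p.1⁻¹ * g))) f2]
  rw [← finsum_curry (fun q : G × G => co x q.2 * co y (q.2⁻¹ * q.1) * co z (q.1⁻¹ * g)) f1]
  rw [hcomp]
  exact (finsum_comp_equiv e).symm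

instance : Ring (MN G k) where
  __ := (inferInstance : AddCommGroup (MN G k))
  mul := (· * ·)
  one := 1
  mul_assoc := mul_assoc'
  one_mul x := by ext g; rw [one_def, single_mul]; simp
  mul_one x := by ext g; rw [one_def, mul_single]; simp
  zero_mul x := by ext g; rw [co_mul]; simp
  mul_zero x := by ext g; rw [co_mul]; simp
  left_distrib x y z := by
    ext g
    rw [co_add, co_mul, co_mul, co_mul, ← finsum_add_distrib (hfs x y g) (hfs x z g)]
    exact finsum_congr fun a => by rw [co_add, mul_add]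
  right_distrib x y z := by
    ext g
    rw [co_add, co_mul, co_mul, co_mul, ← finsum_add_distrib (hfs x z g) (hfs y z g)]
    exact finsum_congr fun a => by rw [co_add, add_mul]

theorem single_zero (g : G) : single g (0 : k) = 0 := by
  classical
  ext a
  simp [co_single]

theorem single_mul_single (g h : G) (c d : k) :
    single g c * single h d = single (g * h) (c * d) := by
  classical
  ext a
  rw [single_mul, co_single, co_single]
  by_cases ha : a = g * h
  · simp [ha]
  · have : g⁻¹ * a ≠ h := by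
      intro h'
      exact ha (by rw [← h']; group)
    simp [ha, this]

theorem exists_right_inv (x : MN G k) (hx : x ≠ 0) : ∃ y : MN G k, x * y = 1 := by
  classical
  have hne : (support (co x)).Nonempty := by
    by_contra h
    rw [Set.not_nonempty_iff_eq_empty] at h
    apply hx
    ext g
    have : g ∉ support (co x) := by rw [h]; simp
    simpa using this
  obtain ⟨g0, hg0, hmin⟩ : ∃ g0, co x g0 ≠ 0 ∧ ∀ a, co x a ≠ 0 → g0 ≤ a :=
    ⟨(co_pwo x).isWF.min hne, (co_pwo x).isWF.min_mem hne, fun a ha => (co_pwo x).isWF.min_le hne ha⟩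
  set P : Set G := (fun a => g0⁻¹ * a) '' support (co x) with hP
  have hPpwo : P.IsPWO := (co_pwo x).image_of_monotone (by
    intro a b hab
    exact mul_le_mul_right hab g0⁻¹)
  have hPpos : ∀ p ∈ P, (1 : G) ≤ p := by
    rintro p ⟨a, ha, rfl⟩
    have := hmin a ha
    exact le_inv_mul_iff_mul_le.2 (by simpa using this)
  set W : Set G := (Submonoid.closure P : Set G) * {g0⁻¹} with hW
  have hWpwo : W.IsPWO := isPWO_mul (isPWO_closure hPpos hPpwo) (Set.finite_singleton _).isPWO
  have hW0 : g0⁻¹ ∈ W := Set.mem_mul.2 ⟨1, Submonoid.one_mem _, g0⁻¹, rfl, one_mul _⟩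
  have hWmul : ∀ a h, co x a ≠ 0 → a⁻¹ * g0 * h ∈ W → h ∈ W := by
    intro a h ha hh
    obtain ⟨u, hu, v, hv, huv⟩ := Set.mem_mul.1 hh
    refine Set.mem_mul.2 ⟨g0⁻¹ * a * u, ?_, v, hv, ?_⟩
    · exact Submonoid.mul_mem _ (Submonoid.subset_closure ⟨a, ha, rfl⟩) hu
    · rw [mul_assoc (g0⁻¹ * a), huv]
      group
  have hwf : WellFounded (fun a b : W => (a : G) < b) := hWpwo.isWF
  let F : (w : W) → ((u : W) → (u : G) < w → k) → k := fun w r =>
    (co x g0)⁻¹ * ((if (w : G) = g0⁻¹ then 1 else 0) -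
      ∑ᶠ a, if h : (a⁻¹ * g0 * w ∈ W ∧ a⁻¹ * g0 * w < w) then co x a * r ⟨a⁻¹ * g0 * w, h.1⟩ h.2 else 0)
  let y0 : W → k := hwf.fix F
  have hy0 : ∀ w : W, y0 w = F w (fun u _ => y0 u) := fun w => hwf.fix_eq F w
  let y : MN G k := mk' (fun h => if hh : h ∈ W then y0 ⟨h, hh⟩ else 0) (hWpwo.mono (by
    intro h hh
    by_contra hcon
    exact hh (dif_neg hcon)))
  have hyW : ∀ h (hh : h ∈ W), co y h = y0 ⟨h, hh⟩ := fun h hh => dif_pos hh
  have hyN : ∀ h, h ∉ W → co y h = 0 := fun h hh => dif_neg hh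
  refine ⟨y, ?_⟩
  ext g
  rw [co_mul, one_def, co_single]
  obtain ⟨h, rfl⟩ : ∃ h, g = g0 * h := ⟨g0⁻¹ * g, by group⟩
  have hfin := hfs x y (g0 * h)
  have hiff : (g0 * h = 1) ↔ (h = g0⁻¹) := by
    constructor
    · intro h'
      exact eq_inv_of_mul_eq_one_right h'
    · intro h'
      rw [h']; group
  by_cases hh : h ∈ W
  · rw [← add_finsum_cond_ne g0 hfin]
    have e1 : co y (g0⁻¹ * (g0 * h)) = y0 ⟨h, hh⟩ := by
      rw [inv_mul_cancel_left]; exact hyW h hh
    have e2 : (∑ᶠ (a : G) (_ : a ≠ g0), co x a * co y (a⁻¹ * (g0 * h)))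
        = ∑ᶠ a, if h' : (a⁻¹ * g0 * h ∈ W ∧ a⁻¹ * g0 * h < h)
            then co x a * y0 ⟨a⁻¹ * g0 * h, h'.1⟩ else 0 := by
      refine finsum_congr fun a => ?_
      by_cases hag : a = g0
      · subst hag
        simp
      · rw [finsum_eq_if, if_pos hag]
        by_cases hxa : co x a = 0
        · simp [hxa]
        · have hlt : g0 < a := lt_of_le_of_ne (hmin a hxa) (Ne.symm hag)
          have hlt2 : a⁻¹ * g0 * h < h := by
            have h1 : a⁻¹ * g0 < 1 := inv_mul_lt_iff_lt_mul.2 (by simpa using hlt)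
            simpa using mul_lt_mul_left h1 h
          by_cases haW : a⁻¹ * g0 * h ∈ W
          · rw [dif_pos ⟨haW, hlt2⟩, ← mul_assoc a⁻¹ g0 h, hyW _ haW]
          · rw [dif_neg (fun h' => haW h'.1), ← mul_assoc a⁻¹ g0 h, hyN _ haW, mul_zero]
    rw [e1, e2, hy0 ⟨h, hh⟩]
    simp only [F]
    rw [mul_inv_cancel_left₀ hg0]
    simp only [hiff]
    ring
  · have hne' : ¬ (g0 * h = 1) := by
      intro h'
      exact hh (by rw [hiff.1 h']; exact hW0)
    rw [if_neg hne']
    rw [finsum_eq_zero_of_forall_eq_zero]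
    intro a
    by_cases hxa : co x a = 0
    · simp [hxa]
    · have : a⁻¹ * g0 * h ∉ W := fun h' => hh (hWmul a h hxa h')
      rw [← mul_assoc a⁻¹ g0 h, hyN _ this, mul_zero]

instance : Nontrivial (MN G k) := by
  classical
  refine ⟨⟨0, 1, ?_⟩⟩
  intro h
  have := congrArg (fun x => co x (1 : G)) h
  simp [one_def, co_single] at this

theorem exists_inv (x : MN G k) (hx : x ≠ 0) : ∃ y : MN G k, x * y = 1 ∧ y * x = 1 := by
  obtain ⟨y, hy⟩ := exists_right_inv x hx
  have hy0 : y ≠ 0 := by
    rintro rfl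
    simp at hy
  obtain ⟨z, hz⟩ := exists_right_inv y hy0
  have : x = z := by
    calc x = x * (y * z) := by rw [hz, mul_one]
      _ = z := by rw [← mul_assoc, hy, one_mul]
  exact ⟨y, hy, by rw [this]; exact hz⟩

open Classical in
instance : DivisionRing (MN G k) where
  __ := (inferInstance : Ring (MN G k))
  inv x := if hx : x ≠ 0 then (exists_inv x hx).choose else 0
  mul_inv_cancel x hx := by
    change x * (if hx : x ≠ 0 then (exists_inv x hx).choose else 0) = 1
    rw [dif_pos hx]
    exact (exists_inv x hx).choose_spec.1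
  inv_zero := by
    change (if hx : (0 : MN G k) ≠ 0 then (exists_inv 0 hx).choose else 0) = 0
    simp
  nnqsmul := _
  nnqsmul_def := fun _ _ => rfl
  qsmul := _
  qsmul_def := fun _ _ => rfl

end SingerSq
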